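import Pool.Agent.H93.PF.TargetsB

/-!
# GRO: growth of the number of words without forbidden repetitions (`MP_32ebde_an`)
-/

set_option autoImplicit false

open MeasureTheory Filter Topology Finset Pool.Agent.H93.PF

namespace Pool.Agent.H11.PF

/-- The prefix of length `p` of a word. -/
def pre {A : Type} {N : ℕ} (w : Fin N → A) (p : ℕ) (h : p ≤ N) : Fin p → A :=
  fun j => w (Fin.castLE h j)

theorem Gd.pre {A : Type} {m : ℕ → ℕ} {N : ℕ} {w : Fin N → A} (hw : Gd m w) (p : ℕ)
    (h : p ≤ N) : Gd m (pre w p h) := by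
  intro q i hq hi hper
  refine hw q i hq (hi.trans h) fun j hj hij hjl => ?_
  exact hper j (lt_of_lt_of_le hjl hi) hij hjl

/-- A word with a repetition at its end is determined by a prefix. -/
theorem bad_inj {A : Type} {N q l : ℕ} (hq : 0 < q) (hl : l ≤ N) (hql : q ≤ l)
    {w w' : Fin N → A} (hw : Per w q (N - l) l) (hw' : Per w' q (N - l) l)
    (h : pre w (N - (l - q)) (Nat.sub_le _ _) = pre w' (N - (l - q)) (Nat.sub_le _ _)) :
    w = w' := by
  have key : ∀ t : ℕ, ∀ ht : t < N, w ⟨t, ht⟩ = w' ⟨t, ht⟩ := by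
    intro t
    induction t using Nat.strong_induction_on with
    | _ t ih =>
      intro ht
      by_cases h1 : t < N - (l - q)
      · exact congrFun h ⟨t, h1⟩
      · obtain ⟨j, rfl⟩ : ∃ j, t = j + q := ⟨t - q, by omega⟩
        rw [hw j ht (by omega) (by omega), hw' j ht (by omega) (by omega)]
        exact ih j (by omega) _
  funext t
  exact key t.1 t.2

open Classical in
/-- words whose part without the last letter has no forbidden repetition -/
noncomputable def EE (d : ℕ) (m : ℕ → ℕ) (n : ℕ) : Finset (Fin (n + 1) → Fin d) :=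
  univ.filter fun w => Gd m (pre w n (Nat.le_succ n))

theorem card_EE (d : ℕ) (m : ℕ → ℕ) (n : ℕ) : d * (FF d m n).card ≤ (EE d m n).card := by
  classical
  have h1 : (univ ×ˢ FF d m n : Finset (Fin d × (Fin n → Fin d))).card =
      d * (FF d m n).card := by
    rw [Finset.card_product, Finset.card_univ, Fintype.card_fin]
  rw [← h1]
  have hpre : ∀ (u : Fin n → Fin d) (c : Fin d),
      pre (Fin.snoc (α := fun _ => Fin d) u c) n (Nat.le_succ n) = u := by
    intro u c
    funext j
    have h2 : Fin.castLE (Nat.le_succ n) j = j.castSucc := rfl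
    unfold pre
    rw [h2, Fin.snoc_castSucc]
  refine Finset.card_le_card_of_injOn
    (fun p => Fin.snoc (α := fun _ => Fin d) p.2 p.1) ?_ ?_
  · intro p hp
    rw [Finset.mem_coe, Finset.mem_product] at hp
    have h2 := hp.2
    unfold FF at h2
    rw [Finset.mem_filter] at h2
    rw [Finset.mem_coe]
    unfold EE
    rw [Finset.mem_filter]
    refine ⟨Finset.mem_univ _, ?_⟩
    rw [hpre]
    exact h2.2
  · intro p _ p' _ h
    dsimp only at h
    have h2 : p.2 = p'.2 := by
      rw [← hpre p.2 p.1, ← hpre p'.2 p'.1, h]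
    have h3 : p.1 = p'.1 := by
      have h4 := congrFun h (Fin.last n)
      rwa [Fin.snoc_last, Fin.snoc_last] at h4
    exact Prod.ext h3 h2

theorem bound (d : ℕ) (m : ℕ → ℕ) (hm : ∀ q, 0 < q → 4 * q < m q) (n : ℕ) :
    d * (FF d m n).card ≤ (FF d m (n + 1)).card +
      ∑ q ∈ (Icc 1 (n + 1)).filter (fun q => m q ≤ n + 1),
        (FF d m (n + 1 - (m q - q))).card := by
  classical
  set Bad : ℕ → Finset (Fin (n + 1) → Fin d) := fun q =>
    (EE d m n).filter fun w => Per w q (n + 1 - m q) (m q) with hBad
  have hsub : EE d m n ⊆ FF d m (n + 1) ∪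
      ((Icc 1 (n + 1)).filter (fun q => m q ≤ n + 1)).biUnion Bad := by
    intro w hw
    rw [Finset.mem_union]
    by_cases hg : Gd m w
    · left
      unfold FF
      rw [Finset.mem_filter]
      exact ⟨Finset.mem_univ _, hg⟩
    · right
      unfold Gd at hg
      push Not at hg
      obtain ⟨q, i, hq, hi, hper⟩ := hg
      have hw' := hw
      unfold EE at hw'
      rw [Finset.mem_filter] at hw'
      have h4 := hm q hq
      have hi' : i + m q = n + 1 := by
        by_contra hne
        have hlt : i + m q ≤ n := by omega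
        refine hw'.2 q i hq hlt fun j hj hij hjl => ?_
        exact hper j (by omega) hij hjl
      rw [Finset.mem_biUnion]
      refine ⟨q, ?_, ?_⟩
      · rw [Finset.mem_filter, Finset.mem_Icc]
        omega
      · rw [hBad, Finset.mem_filter]
        refine ⟨hw, ?_⟩
        have hi2 : n + 1 - m q = i := by omega
        rw [hi2]
        exact hper
  have hB : ∀ q ∈ (Icc 1 (n + 1)).filter (fun q => m q ≤ n + 1),
      (Bad q).card ≤ (FF d m (n + 1 - (m q - q))).card := by
    intro q hq
    rw [Finset.mem_filter, Finset.mem_Icc] at hq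
    have h4 := hm q (by omega)
    refine Finset.card_le_card_of_injOn
      (fun w => pre w (n + 1 - (m q - q)) (Nat.sub_le _ _)) ?_ ?_
    · intro w hw
      rw [hBad, Finset.mem_coe, Finset.mem_filter] at hw
      have hw' := hw.1
      unfold EE at hw'
      rw [Finset.mem_filter] at hw'
      rw [Finset.mem_coe]
      unfold FF
      rw [Finset.mem_filter]
      refine ⟨Finset.mem_univ _, ?_⟩
      exact Gd.pre hw'.2 (n + 1 - (m q - q)) (by omega)
    · intro w hw w' hw' h
      rw [hBad, Finset.mem_coe, Finset.mem_filter] at hw hw'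
      exact bad_inj (by omega) hq.2 (by omega) hw.2 hw'.2 h
  calc d * (FF d m n).card ≤ (EE d m n).card := card_EE d m n
    _ ≤ _ := Finset.card_le_card hsub
    _ ≤ (FF d m (n + 1)).card +
        (((Icc 1 (n + 1)).filter (fun q => m q ≤ n + 1)).biUnion Bad).card :=
        Finset.card_union_le _ _
    _ ≤ (FF d m (n + 1)).card +
        ∑ q ∈ (Icc 1 (n + 1)).filter (fun q => m q ≤ n + 1), (Bad q).card :=
        Nat.add_le_add_left Finset.card_biUnion_le _
    _ ≤ _ := Nat.add_le_add_left (Finset.sum_le_sum hB) _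

theorem pf_GRO : T_GRO := by
  classical
  intro d m θ κ hT
  have hθ : (0 : ℝ) < θ := by linarith [hT.th]
  have hstep : ∀ n : ℕ, θ * ((FF d m n).card : ℝ) ≤ ((FF d m (n + 1)).card : ℝ) := by
    intro n
    induction n using Nat.strong_induction_on with
    | _ n ih =>
      have hpow : ∀ k j : ℕ, j + k ≤ n →
          θ ^ k * ((FF d m j).card : ℝ) ≤ ((FF d m (j + k)).card : ℝ) := by
        intro k
        induction k with
        | zero => intro j _; simp
        | succ k ihk =>
          intro j hj
          have h1 := ihk j (by omega)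
          have h2 := ih (j + k) (by omega)
          calc θ ^ (k + 1) * ((FF d m j).card : ℝ) = θ * (θ ^ k * ((FF d m j).card : ℝ)) := by
                ring
            _ ≤ θ * ((FF d m (j + k)).card : ℝ) := mul_le_mul_of_nonneg_left h1 hθ.le
            _ ≤ _ := h2
      have hb : (d : ℝ) * ((FF d m n).card : ℝ) ≤ ((FF d m (n + 1)).card : ℝ) +
          ∑ q ∈ (Icc 1 (n + 1)).filter (fun q => m q ≤ n + 1),
            ((FF d m (n + 1 - (m q - q))).card : ℝ) := by
        exact_mod_cast bound d m hT.four n
      have hs : ∑ q ∈ (Icc 1 (n + 1)).filter (fun q => m q ≤ n + 1),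
            ((FF d m (n + 1 - (m q - q))).card : ℝ) ≤
          ∑ q ∈ Icc 1 (n + 1), (θ ^ (m q - q - 1))⁻¹ * ((FF d m n).card : ℝ) := by
        refine (Finset.sum_le_sum (g := fun q => (θ ^ (m q - q - 1))⁻¹ *
          ((FF d m n).card : ℝ)) fun q hq => ?_).trans
          (Finset.sum_le_sum_of_subset_of_nonneg (Finset.filter_subset _ _)
            fun q _ _ => by positivity)
        rw [Finset.mem_filter, Finset.mem_Icc] at hq
        have h4 := hT.four q (by omega)
        have h5 := hpow (m q - q - 1) (n + 1 - (m q - q)) (by omega)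
        have h6 : n + 1 - (m q - q) + (m q - q - 1) = n := by omega
        rw [h6] at h5
        rw [inv_mul_eq_div, le_div_iff₀ (by positivity), mul_comm]
        exact h5
      rw [← Finset.sum_mul] at hs
      have hc := hT.c1 (n + 1)
      have ha : (0 : ℝ) ≤ ((FF d m n).card : ℝ) := Nat.cast_nonneg _
      have hc2 := mul_le_mul_of_nonneg_right hc ha
      rw [add_mul] at hc2
      linarith
  have hpow : ∀ n k : ℕ,
      θ ^ k * ((FF d m n).card : ℝ) ≤ ((FF d m (n + k)).card : ℝ) := by
    intro n k
    induction k with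
    | zero => simp
    | succ k ihk =>
      calc θ ^ (k + 1) * ((FF d m n).card : ℝ) = θ * (θ ^ k * ((FF d m n).card : ℝ)) := by
            ring
        _ ≤ θ * ((FF d m (n + k)).card : ℝ) := mul_le_mul_of_nonneg_left ihk hθ.le
        _ ≤ _ := hstep (n + k)
  refine ⟨hstep, hpow, fun n => ?_⟩
  have h0 : (FF d m 0).card = 1 := by
    have h1 : FF d m 0 = univ := by
      unfold FF
      refine Finset.filter_true_of_mem fun w _ q i hq hi _ => ?_
      have := hT.four q hq
      omega
    rw [h1, Finset.card_univ]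
    simp
  have h1 := hpow 0 n
  rw [h0, Nat.cast_one, mul_one, zero_add] at h1
  have h2 : (1 : ℝ) ≤ θ ^ n := one_le_pow₀ (by linarith [hT.th])
  have h3 : (1 : ℝ) ≤ ((FF d m n).card : ℝ) := h2.trans h1
  exact_mod_cast h3

end Pool.Agent.H11.PF
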